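import Pool.Agent.N508.CS.Main
import Pool.Agent.N508.CS.Stab
import Pool.Agent.N508.CS.Qd
import Pool.Agent.N508.CS.Hom
import Pool.Agent.N508.CS.Finite
import Pool.Agent.N508.CS.Top

/-!
# Graphs of groups with compatible series and the Farrell-Jones conjecture

`C` is any class of groups with the closure properties `ClosedE C` which contains the metabelian
groups. All this is known for the class of the groups whose wreath products with finite groups satisfy
the K-theoretic Farrell-Jones conjecture with coefficients in additive categories.

Let `G` act on a tree and let `K` be a normal subgroup of `G` with `G / K` in `C`. Suppose that the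
stabilizers `K_v` of the vertices in `K` have series `1 = A₀(v) ≤ A₁(v) ≤ ... ≤ Aₙ(v) = K_v` which are
compatible (`CFam`): the families are invariant under conjugation by `G` (so that `Aᵢ(v)` is normal in
`G_v`) and `Aᵢ(v) ∩ G_u = Aᵢ(u) ∩ G_v` for each edge `v u`. Suppose that for each `i < n`

* (`StepV`) the groups `Aᵢ₊₁(v) ⟨x⟩ / Aᵢ(v)`, `x` in `G_v`, embed in groups in `C`, and
* (`StepH`) for each edge `v u` the image of `Aᵢ₊₁(v) ∩ G_u` in `Aᵢ₊₁(v) / Aᵢ(v)` embeds in the
  abelianization of this group, or, for all edges (`StepF`), these images are finite, where in the
  second case `C` is supposed to have the property `AcylF`.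

Then `G` is in `C`. `AcylF` says that finitely generated groups which act on trees without inversions,
such that the pointwise stabilizers of long paths have bounded order, are in `C` if the vertex
stabilizers are; for the class above this is a theorem of Knopf.

The conditions of a step are satisfied if the groups `Aᵢ₊₁(v) / Aᵢ(v)` are abelian (`abelian_step`).
So `G` is in `C` for instance in the following cases (`K = G`).

* All vertex stabilizers are virtually solvable groups with compatible series with abelian factors,
  except for the last one, in which the images of the edge groups are finite. For example: the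
  vertex groups are crystallographic groups, and an element of an edge group is a translation in
  one vertex group if and only if it is a translation in the other one; or the vertex groups are
  nilpotent and the inclusions of the edge groups respect the upper central series. For abelian vertex
  groups this is the theorem of Gandini, Meinert and Rüping.
* All edge groups are contained in abelian normal subgroups `A(v)` of the vertex groups `G_v`, and
  `G_v / A(v)` is in `C` (then `A(v) ∩ G_u = G_u ∩ G_v = A(u) ∩ G_v`). For example, all edge groups are
  contained in the centres of the vertex groups. The edge groups may be contained in the commutator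
  subgroups of the vertex groups, as for the fundamental groups of unit tangent bundles of surfaces
  and the groups generated by the fibre.

Outline of the proof. Let `Nᵢ` be the subgroup generated by all `Aᵢ(v)`. By a reduction of words along
a subtree which is a transversal for the family (`t_stab`), the stabilizer of `v` in `Nᵢ` is `Aᵢ(v)`.
The group `G / Nᵢ` acts on a tree with vertex stabilizers `G_v / Aᵢ(v)` and edge stabilizers
`G_e / (Aᵢ(v) ∩ G_e)` (`t_qd`). One shows by descending induction on `i` that `G / Nᵢ` is in `C`. The
induction step is the theorem on edge groups in the homology of the vertex groups, or the one on finite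
edge groups, relative to the normal subgroup `Nᵢ₊₁ / Nᵢ` of `G / Nᵢ` (`Pool.Agent.N509`).
-/

set_option autoImplicit false

namespace Pool.Agent.Results.MP_e40716_gt.CompatibleSeries

open Pool.Agent.Y110.FJ (ClosedE)
open Pool.Agent.N509.TX (AcylF)
open Pool.Agent.N509.TK (Sb)
open Pool.Agent.N508.CS

/-- the conditions of a step hold if the factors are abelian -/
theorem abelian_step (C : ∀ (G : Type) [Group G], Prop) (hC : ClosedE C)
    (hM : ∀ (G : Type) [Group G], derivedSeries G 2 = ⊥ → C G)
    {G V : Type} [Group G] [MulAction G V] (T : SimpleGraph V) (A B : V → Subgroup G)
    (hA : CFam T A) (hB : CFam T B) (h : ∀ v, A v ≤ B v) (hab : ∀ v, ⁅B v, B v⁆ ≤ A v) :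
    StepV C A B ∧ StepH T A B :=
  t_abel C hC hM G V T A B hA hB h hab

theorem result (C : ∀ (G : Type) [Group G], Prop) (hC : ClosedE C)
    (hM : ∀ (G : Type) [Group G], derivedSeries G 2 = ⊥ → C G)
    {G V : Type} [Group G] [MulAction G V] (T : SimpleGraph V) (hT : T.IsTree)
    (hact : ∀ (g : G) (u v : V), T.Adj u v → T.Adj (g • u) (g • v))
    (K : Subgroup G) [K.Normal] (hQ : C (G ⧸ K))
    (n : ℕ) (A : ℕ → V → Subgroup G) (hA : ∀ i ≤ n, CFam T (A i))
    (h0 : ∀ v, A 0 v = ⊥) (hn : ∀ v, A n v = MulAction.stabilizer G v ⊓ K)
    (hstep : ∀ i < n, (∀ v, A i v ≤ A (i + 1) v) ∧ StepV C (A i) (A (i + 1)) ∧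
      (StepH T (A i) (A (i + 1)) ∨ (AcylF C ∧ StepF T (A i) (A (i + 1))))) : C G :=
  t_main (t_qd t_stab) t_h t_f t_top C hC hM G V T hT hact K hQ n A hA h0 hn hstep

end Pool.Agent.Results.MP_e40716_gt.CompatibleSeries
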