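import Pool.Agent.N510.CT.Mod
import Pool.Agent.N510.CT.KOne
import Pool.Agent.N510.CT.Dom

set_option autoImplicit false

/-!
# Integral group rings at the norm `3 / √2`

For every group `G` (torsion allowed), finitely presented `ℤG`-modules with a presentation matrix
and invertible matrices over `ℤG` of operator norm at most `3 / √2` (the bound included) come from
virtually cyclic subgroups. For every larger bound all finitely presented modules have a
presentation matrix and all classes of `K_1(ℤG)` have a representative of such a norm, with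
coefficients `0`, `1`, `-1`.
-/

namespace Pool.Agent.Results.MP_e40716_gt.CriticalNormIntegral

open TH57.Thr TH6.PF Matrix Pool.Agent.N510

/-- All coefficients are `0`, `1` or `-1`. -/
def Small {G : Type} {ι κ : Type} (A : Matrix ι κ (MonoidAlgebra ℤ G)) : Prop :=
  ∀ i j g, (A i j).coeff g = 0 ∨ (A i j).coeff g = 1 ∨ (A i j).coeff g = -1

/-- `P` is the cokernel of the right multiplication with `A` on row vectors. -/
def Presents {G : Type} [Group G] {m n : ℕ} (A : Matrix (Fin m) (Fin n) (MonoidAlgebra ℤ G))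
    (P : Type) [AddCommGroup P] [Module (MonoidAlgebra ℤ G) P] : Prop :=
  Nonempty (P ≃ₗ[MonoidAlgebra ℤ G]
    ((Fin n → MonoidAlgebra ℤ G) ⧸ LinearMap.range A.vecMulLinear))

/-- `P` is a finite direct sum of modules induced from virtually cyclic subgroups `V b`, which are
projective over the rings `ℤ(V b)` if `P` is projective. -/
def FromVC (G : Type) [Group G] (P : Type) [AddCommGroup P] [Module (MonoidAlgebra ℤ G) P] :
    Prop :=
  ∃ (k : ℕ) (V : Fin k → Subgroup G) (p q : Fin k → ℕ)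
    (B : ∀ b, Matrix (Fin (p b)) (Fin (q b)) (MonoidAlgebra ℤ (V b))),
    (∀ b, ∃ s : V b, (Subgroup.zpowers s).FiniteIndex) ∧
    Nonempty (P ≃ₗ[MonoidAlgebra ℤ G] ∀ b, ((Fin (q b) → MonoidAlgebra ℤ G) ⧸
      LinearMap.range ((B b).map
        (MonoidAlgebra.mapDomainRingHom ℤ (V b).subtype)).vecMulLinear)) ∧
    (Module.Projective (MonoidAlgebra ℤ G) P →
      ∀ b, Module.Projective (MonoidAlgebra ℤ (V b)) ((Fin (q b) → MonoidAlgebra ℤ (V b)) ⧸
        LinearMap.range (B b).vecMulLinear))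

/-- For some `m` and some `C` in the commutator subgroup, `diag(A, 1_m) * C` has coefficients
`0`, `1`, `-1` and norm at most `c`. -/
def HasRep {G : Type} [Group G] {n : ℕ} (A : Matrix (Fin n) (Fin n) (MonoidAlgebra ℤ G)) (c : ℝ) :
    Prop :=
  ∃ (m : ℕ) (C : (Matrix (Fin n ⊕ Fin m) (Fin n ⊕ Fin m) (MonoidAlgebra ℤ G))ˣ),
    C ∈ commutator (Matrix (Fin n ⊕ Fin m) (Fin n ⊕ Fin m) (MonoidAlgebra ℤ G))ˣ ∧
    Small (fromBlocks A 0 0 1 * C.val) ∧ NormLE (fromBlocks A 0 0 1 * C.val) c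

/-- `NormLE A c` (from `Pool.Agent.TH57.Thr.Defs`): right multiplication by `A` on `ℓ²` has norm at
most `|c|`. `VCGen ℤ G (Fin n)` is the subgroup generated by the images of the invertible matrices
over the rings `ℤV`, `V` a virtually cyclic subgroup of `G`. -/
theorem result :
    (∀ c : ℝ, 0 < c → c ^ 2 ≤ 9 / 2 → ∀ (G : Type) [Group G],
      (∀ (P : Type) [AddCommGroup P] [Module (MonoidAlgebra ℤ G) P] (m n : ℕ)
        (A : Matrix (Fin m) (Fin n) (MonoidAlgebra ℤ G)),
        Presents A P → NormLE A c → FromVC G P) ∧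
      ∀ (n : ℕ) (A : (Matrix (Fin n) (Fin n) (MonoidAlgebra ℤ G))ˣ),
        NormLE A.val c → A ∈ VCGen ℤ G (Fin n)) ∧
    ∀ c : ℝ, 9 / 2 < c ^ 2 → ∀ (G : Type) [Group G],
      (∀ (P : Type) [AddCommGroup P] [Module (MonoidAlgebra ℤ G) P],
        Module.FinitePresentation (MonoidAlgebra ℤ G) P →
        ∃ (m n : ℕ) (A : Matrix (Fin m) (Fin n) (MonoidAlgebra ℤ G)),
          Presents A P ∧ Small A ∧ NormLE A c) ∧
      ∀ (n : ℕ) (A : (Matrix (Fin n) (Fin n) (MonoidAlgebra ℤ G))ˣ), HasRep A.val c := by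
  have hsm : ∀ {G : Type} {ι κ : Type} {A : Matrix ι κ (MonoidAlgebra ℤ G)},
      LT.CS ({1, -1} : Set ℤ) A → Small A := by
    intro G ι κ A h i j g
    by_cases h0 : (A i j).coeff g = 0
    · exact Or.inl h0
    · exact Or.inr (h i j g h0)
  refine ⟨fun c hc0 hc G _ => ⟨?_, ?_⟩, fun c hc G _ => ⟨?_, ?_⟩⟩
  · rintro P _ _ m n A ⟨e⟩ hA
    exact CT.module_small2 G P m n A e c hc0 hc hA
  · intro n A hA
    exact (CT.small_below2 A c hc0 hc hA).1
  · intro P _ _ hP
    obtain ⟨m, n, A, h1, h2, h3⟩ := CT.sthin_pres CT.gens_int P hP c hc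
    exact ⟨m, n, A, h3, hsm h1, CT.normLE_of_thin A h1 c h2⟩
  · intro n A
    obtain ⟨m, C, h1, h2, h3⟩ := CT.sthin_red_fin CT.gens_int A c hc
    exact ⟨m, C, h1, hsm h2, CT.normLE_of_thin _ h2 c h3⟩

end Pool.Agent.Results.MP_e40716_gt.CriticalNormIntegral
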