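import Pool.Agent.N77.GK.Main

/-!
# Extensions by finite graph products with permuted conjugacy classes of vertex groups

`C` is any class of groups with the closure properties `ClosedE C` which contains the groups `F ⋊ ℤ`
for all free groups `F` and all automorphisms of `F`. All this is published for the class of the
groups that satisfy the K- and L-theoretic Farrell–Jones conjecture with coefficients and finite
wreath products.

Let `N` be a normal subgroup of a group `G` which is the graph product of subgroups `K v` over a
finite graph. Suppose that the conjugation by every element of `G` permutes the `N`-conjugacy classes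
of the subgroups `K v` (different vertex groups may be conjugated by different elements of `N`), and
that `K v ⟨g⟩` is in `C` for all vertices `v` and all `g` in `G` which normalize `K v`. If `G ⧸ N` is in
`C`, then `G` is in `C`.

Outline of the proof. One may pass to the subgroup of finite index of `G` which preserves all
conjugacy classes. It normalizes the kernels of the retractions of `N` to the graph products over the
sets `X` of vertices. By induction over `X` the quotient by this kernel is in `C`: the graph product
over `X ∪ {v}` is an amalgam, and the homomorphism to the direct product of the graph product over `X`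
and the group of `v` is injective on the factors, so its kernel is free. So in each step one has an
extension with free kernel of a subgroup of the product of the quotients for `X` and for `{v}`. The
quotient for `{v}` is an extension of `G ⧸ N` by `K v`, to which the extension criterion applies.
-/

set_option autoImplicit false

namespace Pool.Agent.Results.MP_e40716_gt.GraphProductExtensions

open Pool.Agent.Y110.FJ (ClosedE)
open Pool.Agent.N77.GP (IsGraphProduct)

theorem result (C : ∀ (G : Type) [Group G], Prop) (hC : ClosedE C)
    (hF : ∀ (X : Type) (α : MulAut (FreeGroup X)),
      C (FreeGroup X ⋊[zpowersHom (MulAut (FreeGroup X)) α] Multiplicative ℤ))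
    (G V : Type) [Group G] [Finite V] (N : Subgroup G) [N.Normal] (Λ : SimpleGraph V)
    (K : V → Subgroup G) (hN : IsGraphProduct Λ K N)
    (hperm : ∀ (g : G) (v : V), ∃ w, ∃ n ∈ N, ∀ x, x ∈ K v ↔ n * (g * x * g⁻¹) * n⁻¹ ∈ K w)
    (hK : ∀ (v : V) (g : G), (∀ x, x ∈ K v ↔ g * x * g⁻¹ ∈ K v) →
      C ↥(K v ⊔ Subgroup.zpowers g))
    (hQ : C (G ⧸ N)) : C G :=
  Pool.Agent.N77.GK.gk_main hC hF N Λ K hN hperm hK hQ

end Pool.Agent.Results.MP_e40716_gt.GraphProductExtensions
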