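import Pool.Agent.N506.Gen2
import Pool.Agent.N510.KC.Kgr

/-!
Relative closure properties of the class of the groups with injective rational assembly maps in
algebraic `K`-theory.

`R` is an arbitrary ring, `rat (kgr R)` is the functor `G ↦ ℚ ⊗ K₁(R[G])`, `hq j` is the functor
`G ↦ H_j(G; ℚ)`, `T` is a fixed group, and `α_{j,i} : H_j(G; ℚ) → ℚ ⊗ K₁(R[G × T])`, `i ∈ I_j`, is any
family of transformations natural in the group `G` (for instance, for `R = ℤ` and `T = ℤ^m`, the
components of the rational assembly maps with values in the groups `K_n(ℤ[G])`, `n ≤ 1`, which are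
direct summands of `K₁(ℤ[G × ℤ^m])`).

`𝓑` is any class of groups which contains the groups `ℤ^n` and is closed under direct products of two
groups. If the sum of all the `α_{j,i}` is injective on all groups of `𝓑`, then it is injective on all
groups of the smallest class `Gen2 𝓑` which contains `𝓑` and the groups `P / [S, S]`, for all
virtually free groups `P` and all normal subgroups `S`, and is closed under direct products,
overgroups of finite index, extensions with finite kernel, graph products, restricted wreath products
`K ≀_V Γ` such that the pointwise stabilizers in `Γ` of the finite subsets of `V` are in the class,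
semidirect products with a system of supports, directed colimits along arbitrary homomorphisms, and
detection of rational homology classes by homomorphisms to groups of the class.
-/

set_option autoImplicit false

namespace Pool.Agent.Results.MP_e40716_gt.RelativeClosure

open CategoryTheory Pool.Agent.Y483 Pool.Agent.Y75.MQ Pool.Agent.Y483.PW Pool.Agent.Y477.IW
  Pool.Agent.R615.K1 Pool.Agent.N506

theorem result (R : Type) [Ring R] (T : Type) [Group T] (I : ℕ → Type)
    (α : ∀ j : ℕ, I j → (hq j ⟶ timesF T ⋙ rat (kgr R))) (𝓑 : GrpCat.{0} → Prop)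
    (hZ : ∀ n, 𝓑 (zn n))
    (hprod : ∀ B B' : GrpCat.{0}, 𝓑 B → 𝓑 B' → 𝓑 (GrpCat.of (B × B')))
    (hα : ∀ B : GrpCat.{0}, 𝓑 B → kerFam (fun p : Σ j, I j => α p.1 p.2) B = ⊥)
    (G : Type) [Group G] (hG : Gen2 𝓑 G) :
    kerFam (fun p : Σ j, I j => α p.1 p.2) (GrpCat.of G) = ⊥ :=
  gen2_rdet (Pool.Agent.N510.KC.hasPT_k1 R) (Pool.Agent.N510.KC.cont_k1 R) hZ hprod hG T I α hα

end Pool.Agent.Results.MP_e40716_gt.RelativeClosure
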